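import Pool.Agent.D0H17.GE.Defs

/-! Project GE (helper17), module M1 (helper65): the scales. -/

set_option autoImplicit false

namespace Pool.Agent.D0H65.GE

open Finset Filter Pool.Agent.D0H17.GE

theorem pp_pos (K β : ℝ) (hK : 1 ≤ K) (j i : ℕ) : 0 < pp K β j i := by
  induction i with
  | zero => rw [pp]; positivity
  | succ i ih =>
    rw [pp]
    have : 0 < K := by linarith
    exact mul_pos this (Real.rpow_pos_of_pos ih _)

/-- M1b -/
theorem pp_le (K β : ℝ) (hK : 1 ≤ K) (hβ : 1 < β) (j i : ℕ) :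
    pp K β j i ≤ K ^ i * ((2 : ℝ) ^ j) ^ ((1 - 1 / β) ^ i) ∧ ((2 : ℝ) ^ j) ^ ((1 - 1 / β) ^ i) ≤ pp K β j i := by
  have hK0 : 0 < K := by linarith
  have hβ0 : 0 < β := by linarith
  have hθ0 : 0 ≤ 1 - 1 / β := by
    have : 1 / β ≤ 1 := by rw [div_le_one hβ0]; exact hβ.le
    linarith
  have hθ1 : 1 - 1 / β ≤ 1 := by
    have : 0 < 1 / β := by positivity
    linarith
  induction i with
  | zero =>
    rw [pp, pow_zero, pow_zero, Real.rpow_one, one_mul]
    exact ⟨le_rfl, le_rfl⟩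
  | succ i ih =>
    obtain ⟨h1, h2⟩ := ih
    have hp := pp_pos K β hK j i
    have h3 : (((2 : ℝ) ^ j) ^ ((1 - 1 / β) ^ i)) ^ (1 - 1 / β) =
        ((2 : ℝ) ^ j) ^ ((1 - 1 / β) ^ (i + 1)) := by
      rw [← Real.rpow_mul (by positivity), ← pow_succ]
    rw [pp]
    constructor
    · have h4 : pp K β j i ^ (1 - 1 / β) ≤
          (K ^ i * ((2 : ℝ) ^ j) ^ ((1 - 1 / β) ^ i)) ^ (1 - 1 / β) :=
        Real.rpow_le_rpow hp.le h1 hθ0
      rw [Real.mul_rpow (by positivity) (by positivity), h3] at h4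
      have h5 : (K ^ i) ^ (1 - 1 / β) ≤ K ^ i := by
        calc (K ^ i) ^ (1 - 1 / β) ≤ (K ^ i) ^ (1 : ℝ) :=
              Real.rpow_le_rpow_of_exponent_le (one_le_pow₀ hK) hθ1
          _ = K ^ i := Real.rpow_one _
      calc K * pp K β j i ^ (1 - 1 / β) ≤
            K * ((K ^ i) ^ (1 - 1 / β) * ((2 : ℝ) ^ j) ^ ((1 - 1 / β) ^ (i + 1))) :=
            mul_le_mul_of_nonneg_left h4 hK0.le
        _ ≤ K * (K ^ i * ((2 : ℝ) ^ j) ^ ((1 - 1 / β) ^ (i + 1))) :=
            mul_le_mul_of_nonneg_left (mul_le_mul_of_nonneg_right h5 (by positivity)) hK0.le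
        _ = _ := by ring
    · have h4 : (((2 : ℝ) ^ j) ^ ((1 - 1 / β) ^ i)) ^ (1 - 1 / β) ≤ pp K β j i ^ (1 - 1 / β) :=
        Real.rpow_le_rpow (by positivity) h2 hθ0
      rw [h3] at h4
      have h5 : 0 ≤ pp K β j i ^ (1 - 1 / β) := Real.rpow_nonneg hp.le _
      nlinarith

theorem exp_big (s A : ℝ) (hs : 0 < s) : ∃ j0 : ℕ, ∀ j : ℕ, j0 ≤ j →
    A * (j : ℝ) ^ 2 + A ≤ Real.exp (s * j) := by
  have h1 : Tendsto (fun j : ℕ => Real.exp (s * j) / (s * j) ^ 2) atTop atTop :=
    (Real.tendsto_exp_div_pow_atTop 2).comp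
      (tendsto_natCast_atTop_atTop.const_mul_atTop hs)
  obtain ⟨j1, hj1⟩ := eventually_atTop.1 (h1.eventually_ge_atTop (2 * |A| / s ^ 2))
  refine ⟨j1 + 1, fun j hj => ?_⟩
  have h2 := hj1 j (by omega)
  have hj : (1 : ℝ) ≤ j := by exact_mod_cast (by omega : 1 ≤ j)
  have h3 : 0 < (s * j) ^ 2 := by positivity
  rw [le_div_iff₀ h3] at h2
  have h4 : 2 * |A| / s ^ 2 * (s * j) ^ 2 = 2 * |A| * (j : ℝ) ^ 2 := by
    field_simp
  rw [h4] at h2
  have h5 : A ≤ |A| := le_abs_self A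
  have h6 : (1 : ℝ) ≤ (j : ℝ) ^ 2 := one_le_pow₀ hj
  have h7 : 0 ≤ |A| := abs_nonneg A
  nlinarith

/-- M1 -/
theorem facts (a b K Λ : ℝ) (ha : 1 < a) (hab : a ≤ b) (hK : 1 ≤ K) (T : ℕ) : ∃ j0 : ℕ, 1 ≤ j0 ∧ ∀ j : ℕ, j0 ≤ j →
    ∀ β : ℝ, a ≤ β → β ≤ b → (∀ c : ℝ, β ≤ c → c ≤ β + 1 / j → SF Λ K c j T (pp K β j)) ∧
      ∀ i ≤ T, 32 * (j : ℝ) ^ 2 ≤ pp K β j i := by
  have hK0 : 0 < K := by linarith
  have hb0 : 0 < b := by linarith
  have ha0 : 0 < a := by linarith
  have hlK : 0 ≤ Real.log K := Real.log_nonneg hK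
  obtain ⟨θa, hθa⟩ : ∃ θa : ℝ, θa = 1 - 1 / a := ⟨_, rfl⟩
  have hθa0 : 0 < θa := by
    have : 1 / a < 1 := by rw [div_lt_one ha0]; exact ha
    rw [hθa]; linarith
  have hθa1 : θa ≤ 1 := by
    have : 0 < 1 / a := by positivity
    rw [hθa]; linarith
  obtain ⟨s, hs⟩ : ∃ s : ℝ, s = θa ^ T * Real.log 2 := ⟨_, rfl⟩
  have hlog2 : 0 < Real.log 2 := Real.log_pos (by norm_num)
  have hs0 : 0 < s := by rw [hs]; positivity
  obtain ⟨j1, hj1⟩ := exp_big s (32 + |Λ|) hs0
  obtain ⟨j2, hj2⟩ := exp_big ((a - 1) / (2 * b) * s) (|Λ| + 1) (by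
    have : 0 < a - 1 := by linarith
    positivity)
  refine ⟨j1 + j2 + ⌈2 * b * (Real.log K + |Λ|) / s⌉₊ + 1, by omega, fun j hj β hβ1 hβ2 => ?_⟩
  have e1 := hj1 j (by omega)
  have e2 := hj2 j (by omega)
  have hjR : (1 : ℝ) ≤ j := by exact_mod_cast (by omega : 1 ≤ j)
  have hj0 : (0 : ℝ) < j := by linarith
  have e3 : 2 * b * (Real.log K + |Λ|) ≤ s * j := by
    have h1 : 2 * b * (Real.log K + |Λ|) / s ≤ j :=
      (Nat.le_ceil _).trans (by exact_mod_cast (by omega : ⌈2 * b * (Real.log K + |Λ|) / s⌉₊ ≤ j))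
    rw [div_le_iff₀ hs0] at h1
    linarith
  have hβ : 1 < β := by linarith
  have hβ0 : 0 < β := by linarith
  obtain ⟨θ, hθ⟩ : ∃ θ : ℝ, θ = 1 - 1 / β := ⟨_, rfl⟩
  have hθθ : θa ≤ θ := by
    have : 1 / β ≤ 1 / a := one_div_le_one_div_of_le ha0 hβ1
    rw [hθ, hθa]; linarith
  have hθ0 : 0 < θ := by linarith
  have hppos := fun i => pp_pos K β hK j i
  -- lower bound for the logarithms
  have hlog : ∀ i ≤ T, s * j ≤ Real.log (pp K β j i) := by
    intro i hi
    have h1 := (pp_le K β hK hβ j i).2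
    rw [← hθ] at h1
    have h2 := Real.log_le_log (by positivity) h1
    rw [Real.log_rpow (by positivity), Real.log_pow] at h2
    refine le_trans ?_ h2
    have h3 : θa ^ T ≤ θ ^ i :=
      (pow_le_pow_of_le_one hθa0.le hθa1 hi).trans (pow_le_pow_left₀ hθa0.le hθθ i)
    rw [hs]
    calc θa ^ T * Real.log 2 * j = θa ^ T * (j * Real.log 2) := by ring
      _ ≤ θ ^ i * (j * Real.log 2) := mul_le_mul_of_nonneg_right h3 (by positivity)
  have hexp : ∀ i ≤ T, Real.exp (s * j) ≤ pp K β j i := by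
    intro i hi
    rw [← Real.exp_log (hppos i)]
    exact Real.exp_le_exp.mpr (hlog i hi)
  have hrec : ∀ i, Real.log (pp K β j (i + 1)) =
      Real.log K + (1 - 1 / β) * Real.log (pp K β j i) := by
    intro i
    rw [pp, Real.log_mul hK0.ne' (Real.rpow_pos_of_pos (hppos i) _).ne', Real.log_rpow (hppos i)]
  have hgapl : ∀ i ≤ T, s * j / b - Real.log K ≤
      Real.log (pp K β j i) - Real.log (pp K β j (i + 1)) := by
    intro i hi
    rw [hrec]
    have h1 : s * j / b ≤ Real.log (pp K β j i) / β := by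
      rw [div_le_div_iff₀ hb0 hβ0]
      have h2 := hlog i hi
      have h3 : 0 ≤ s * j := by positivity
      nlinarith
    have h4 : (1 - 1 / β) * Real.log (pp K β j i) =
        Real.log (pp K β j i) - Real.log (pp K β j i) / β := by
      field_simp
    rw [h4]
    linarith
  have hΛ : Λ ≤ |Λ| := le_abs_self Λ
  have hΛ0 : 0 ≤ |Λ| := abs_nonneg Λ
  have hsjb : 2 * (Real.log K + |Λ|) ≤ s * j / b := by
    rw [le_div_iff₀ hb0]
    linarith
  have hanti : ∀ i ≤ T, pp K β j (i + 1) ≤ pp K β j i := by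
    intro i hi
    rw [← Real.log_le_log_iff (hppos _) (hppos _)]
    have := hgapl i hi
    linarith
  have htop : ∀ i, i ≤ T → pp K β j i ≤ 2 ^ j := by
    intro i
    induction i with
    | zero => intro _; rw [pp]
    | succ i ih =>
      intro hi
      exact (hanti i (by omega)).trans (ih (by omega))
  have hone : ∀ i ≤ T, 1 ≤ pp K β j i := by
    intro i hi
    refine le_trans ?_ (hexp i hi)
    exact Real.one_le_exp (by positivity)
  refine ⟨fun c hc1 hc2 => ?_, fun i hi => ?_⟩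
  · have hc0 : 0 < c := by linarith
    have hpow : ∀ i, pp K β j (i + 1) ^ c = K ^ c * pp K β j i ^ ((1 - 1 / β) * c) := by
      intro i
      rw [pp, Real.mul_rpow hK0.le (Real.rpow_nonneg (hppos i).le _),
        ← Real.rpow_mul (hppos i).le]
    refine ⟨fun i hi => ?_, htop, fun i hi => hanti i hi.le, fun i hi => ?_, fun i hi => ?_,
      fun i hi => ?_, fun i hi => ?_⟩
    · refine le_trans ?_ (hexp i hi)
      refine le_trans ?_ e1
      have h6 : (1 : ℝ) ≤ (j : ℝ) ^ 2 := one_le_pow₀ hjR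
      nlinarith
    · rw [hpow]
      have h1 : pp K β j i ^ (c - 1) ≤ 2 * pp K β j i ^ ((1 - 1 / β) * c) := by
        have h2 : c - 1 = (c / β - 1) + (1 - 1 / β) * c := by
          field_simp
          ring
        rw [h2, Real.rpow_add (hppos i)]
        refine mul_le_mul_of_nonneg_right ?_ (Real.rpow_nonneg (hppos i).le _)
        have h3 : c / β - 1 ≤ 1 / j := by
          rw [div_sub_one hβ0.ne', div_le_div_iff₀ hβ0 hj0]
          have h4 : c - β ≤ 1 / j := by linarith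
          rw [le_div_iff₀ hj0] at h4
          linarith
        calc pp K β j i ^ (c / β - 1) ≤ pp K β j i ^ (1 / (j : ℝ)) :=
              Real.rpow_le_rpow_of_exponent_le (hone i hi.le) h3
          _ ≤ ((2 : ℝ) ^ j) ^ (1 / (j : ℝ)) :=
              Real.rpow_le_rpow (hppos i).le (htop i hi.le) (by positivity)
          _ = 2 := by
              rw [← Real.rpow_natCast, ← Real.rpow_mul (by norm_num), mul_one_div_cancel hj0.ne',
                Real.rpow_one]
      have h5 : 0 < K ^ c := Real.rpow_pos_of_pos hK0 _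
      calc K ^ c / 2 * pp K β j i ^ (c - 1) ≤ K ^ c / 2 * (2 * pp K β j i ^ ((1 - 1 / β) * c)) :=
            mul_le_mul_of_nonneg_left h1 (by positivity)
        _ = _ := by ring
    · rw [hpow]
      refine mul_le_mul_of_nonneg_left ?_ (Real.rpow_nonneg hK0.le _)
      refine Real.rpow_le_rpow_of_exponent_le (hone i hi.le) ?_
      have h1 : 1 ≤ c / β := by rw [le_div_iff₀ hβ0]; linarith
      have h2 : (1 - 1 / β) * c = c - c / β := by field_simp
      rw [h2]
      linarith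
    · have h1 : 0 < pp K β j (i + 1) ^ (c - 1) := Real.rpow_pos_of_pos (hppos _) _
      have h2 : pp K β j i ^ (c - 1) = pp K β j (i + 1) ^ (c - 1) *
          Real.exp ((Real.log (pp K β j i) - Real.log (pp K β j (i + 1))) * (c - 1)) := by
        rw [Real.rpow_def_of_pos (hppos i), Real.rpow_def_of_pos (hppos (i + 1)), ← Real.exp_add]
        congr 1
        ring
      have h3 : Λ * j ≤
          Real.exp ((Real.log (pp K β j i) - Real.log (pp K β j (i + 1))) * (c - 1)) := by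
        have h4 : (a - 1) / (2 * b) * s * j ≤
            (Real.log (pp K β j i) - Real.log (pp K β j (i + 1))) * (c - 1) := by
          have h5 := hgapl i hi.le
          have h6 : s * j / (2 * b) ≤ s * j / b - Real.log K := by
            have : s * j / (2 * b) = (s * j / b) / 2 := by field_simp
            rw [this]
            linarith
          have h7 : 0 ≤ s * j / (2 * b) := by positivity
          calc (a - 1) / (2 * b) * s * j = s * j / (2 * b) * (a - 1) := by ring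
            _ ≤ (Real.log (pp K β j i) - Real.log (pp K β j (i + 1))) * (c - 1) :=
                mul_le_mul (h6.trans h5) (by linarith) (by linarith) (h7.trans (h6.trans h5))
        refine le_trans ?_ (Real.exp_le_exp.mpr h4)
        refine le_trans ?_ e2
        have h8 : (j : ℝ) ≤ (j : ℝ) ^ 2 := by nlinarith
        nlinarith
      rw [h2]
      calc Λ * j * pp K β j (i + 1) ^ (c - 1) = pp K β j (i + 1) ^ (c - 1) * (Λ * j) := by ring
        _ ≤ _ := mul_le_mul_of_nonneg_left h3 h1.le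
    · have := hgapl i hi.le
      linarith
  · refine le_trans ?_ (hexp i hi)
    refine le_trans ?_ e1
    have h6 : (0 : ℝ) ≤ (j : ℝ) ^ 2 := by positivity
    nlinarith

end Pool.Agent.D0H65.GE
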