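import Pool.Agent.D0H17.GE.Defs

/-! Project GE (helper17), module M4 (helper65): the number of elements of the index sets. -/

set_option autoImplicit false

namespace Pool.Agent.D0H65.GE

open Finset Pool.Agent.D0H17.GE

theorem tel_le (c K : ℝ) (hc : 1 < c) (p : ℕ → ℝ) : ∀ t : ℕ, (∀ i ≤ t, 0 < p i) →
    (∀ i < t, p (i + 1) ^ c ≤ K ^ c * p i ^ (c - 1)) → 0 ≤ K →
    (∏ i ∈ range (t + 1), p i) * p t ^ (c - 1) ≤ (K ^ c) ^ t * p 0 ^ c := by
  intro t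
  induction t with
  | zero =>
    intro hp _ _
    rw [zero_add, prod_range_one, pow_zero, one_mul]
    have h0 := hp 0 le_rfl
    have : p 0 ^ c = p 0 * p 0 ^ (c - 1) := by
      nth_rewrite 2 [← Real.rpow_one (p 0)]
      rw [← Real.rpow_add h0]
      congr 1
      ring
    rw [this]
  | succ t ih =>
    intro hp hhi hK
    have h1 := ih (fun i hi => hp i (by omega)) (fun i hi => hhi i (by omega)) hK
    have h0 := hp (t + 1) le_rfl
    have h2 : p (t + 1) * p (t + 1) ^ (c - 1) = p (t + 1) ^ c := by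
      nth_rewrite 1 [← Real.rpow_one (p (t + 1))]
      rw [← Real.rpow_add h0]
      congr 1
      ring
    have h3 := hhi t (by omega)
    have hP : 0 ≤ ∏ i ∈ range (t + 1), p i :=
      prod_nonneg fun i hi => (hp i (by rw [mem_range] at hi; omega)).le
    have hKc : 0 ≤ K ^ c := Real.rpow_nonneg hK _
    rw [prod_range_succ, mul_assoc, h2]
    calc (∏ i ∈ range (t + 1), p i) * p (t + 1) ^ c ≤
          (∏ i ∈ range (t + 1), p i) * (K ^ c * p t ^ (c - 1)) :=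
          mul_le_mul_of_nonneg_left h3 hP
      _ = K ^ c * ((∏ i ∈ range (t + 1), p i) * p t ^ (c - 1)) := by ring
      _ ≤ K ^ c * ((K ^ c) ^ t * p 0 ^ c) := mul_le_mul_of_nonneg_left h1 hKc
      _ = (K ^ c) ^ (t + 1) * p 0 ^ c := by ring

theorem tel_ge (c : ℝ) (hc : 1 < c) (p : ℕ → ℝ) : ∀ t : ℕ, (∀ i ≤ t, 0 < p i) →
    (∀ i < t, 1 / 2 * p i ^ (c - 1) ≤ p (i + 1) ^ c) →
    (1 / 2 : ℝ) ^ t * p 0 ^ c ≤ (∏ i ∈ range (t + 1), p i) * p t ^ (c - 1) := by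
  intro t
  induction t with
  | zero =>
    intro hp _
    rw [zero_add, prod_range_one, pow_zero, one_mul]
    have h0 := hp 0 le_rfl
    have : p 0 ^ c = p 0 * p 0 ^ (c - 1) := by
      nth_rewrite 2 [← Real.rpow_one (p 0)]
      rw [← Real.rpow_add h0]
      congr 1
      ring
    rw [this]
  | succ t ih =>
    intro hp hlo
    have h1 := ih (fun i hi => hp i (by omega)) (fun i hi => hlo i (by omega))
    have h0 := hp (t + 1) le_rfl
    have h2 : p (t + 1) * p (t + 1) ^ (c - 1) = p (t + 1) ^ c := by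
      nth_rewrite 1 [← Real.rpow_one (p (t + 1))]
      rw [← Real.rpow_add h0]
      congr 1
      ring
    have h3 := hlo t (by omega)
    have hP : 0 ≤ ∏ i ∈ range (t + 1), p i :=
      prod_nonneg fun i hi => (hp i (by rw [mem_range] at hi; omega)).le
    rw [prod_range_succ, mul_assoc, h2]
    calc (1 / 2 : ℝ) ^ (t + 1) * p 0 ^ c = 1 / 2 * ((1 / 2 : ℝ) ^ t * p 0 ^ c) := by ring
      _ ≤ 1 / 2 * ((∏ i ∈ range (t + 1), p i) * p t ^ (c - 1)) :=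
          mul_le_mul_of_nonneg_left h1 (by norm_num)
      _ = (∏ i ∈ range (t + 1), p i) * (1 / 2 * p t ^ (c - 1)) := by ring
      _ ≤ (∏ i ∈ range (t + 1), p i) * p (t + 1) ^ c := mul_le_mul_of_nonneg_left h3 hP

/-- M4 (upper bound) -/
theorem card_XS_le (b K : ℝ) (R t : ℕ) (hK : 1 ≤ K) : ∃ C0 : ℝ, 0 < C0 ∧ ∀ (c : ℝ) (j : ℕ) (p : ℕ → ℝ),
    1 < c → c ≤ b + 1 → SF 1 K c j t p → ((XS R (t + 1) p).card : ℝ) * p t ^ (c - 1) ≤ C0 * p 0 ^ c := by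
  have hK0 : 0 < K := by linarith
  refine ⟨((R : ℝ) + 1) ^ (t + 1) * (K ^ (b + 1)) ^ t, by positivity, ?_⟩
  intro c j p hc hcb h
  have hpos : ∀ i ≤ t, 0 < p i := fun i hi => lt_of_lt_of_le one_pos (h.big i hi)
  have h1 : ((XS R (t + 1) p).card : ℝ) ≤ ((R : ℝ) + 1) ^ (t + 1) * ∏ i ∈ range (t + 1), p i := by
    rw [XS, Fintype.card_piFinset]
    push_cast
    rw [← Fin.prod_univ_eq_prod_range (fun i => p i) (t + 1)]
    have h2 : ((R : ℝ) + 1) ^ (t + 1) = ∏ _i : Fin (t + 1), ((R : ℝ) + 1) := by simp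
    rw [h2, ← prod_mul_distrib]
    refine prod_le_prod (fun _ _ => Nat.cast_nonneg _) fun i _ => ?_
    have hi := h.big i (by have := i.2; omega)
    rw [Nat.card_Icc]
    have h3 : ((⌊(R : ℝ) * p i⌋₊ + 1 - ⌈p i⌉₊ : ℕ) : ℝ) ≤ ((⌊(R : ℝ) * p i⌋₊ + 1 : ℕ) : ℝ) := by
      exact_mod_cast Nat.sub_le _ _
    refine h3.trans ?_
    push_cast
    have h4 : (⌊(R : ℝ) * p i⌋₊ : ℝ) ≤ (R : ℝ) * p i := Nat.floor_le (by positivity)
    linarith
  have hP : 0 ≤ p t ^ (c - 1) := Real.rpow_nonneg (hpos t le_rfl).le _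
  have h5 := tel_le c K hc p t hpos h.hi hK0.le
  have h6 : (K ^ c) ^ t ≤ (K ^ (b + 1)) ^ t :=
    pow_le_pow_left₀ (Real.rpow_nonneg hK0.le _) (Real.rpow_le_rpow_of_exponent_le hK hcb) _
  have h7 : 0 ≤ p 0 ^ c := Real.rpow_nonneg (hpos 0 (Nat.zero_le _)).le _
  calc ((XS R (t + 1) p).card : ℝ) * p t ^ (c - 1) ≤
        (((R : ℝ) + 1) ^ (t + 1) * ∏ i ∈ range (t + 1), p i) * p t ^ (c - 1) :=
        mul_le_mul_of_nonneg_right h1 hP
    _ = ((R : ℝ) + 1) ^ (t + 1) * ((∏ i ∈ range (t + 1), p i) * p t ^ (c - 1)) := by ring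
    _ ≤ ((R : ℝ) + 1) ^ (t + 1) * ((K ^ c) ^ t * p 0 ^ c) :=
        mul_le_mul_of_nonneg_left h5 (by positivity)
    _ ≤ ((R : ℝ) + 1) ^ (t + 1) * ((K ^ (b + 1)) ^ t * p 0 ^ c) :=
        mul_le_mul_of_nonneg_left (mul_le_mul_of_nonneg_right h6 h7) (by positivity)
    _ = _ := by ring

theorem card_mult (H : ℕ) (hH : 1 ≤ H) (x : ℝ) (hx : 32 * (H : ℝ) ≤ x) :
    x / 16 ≤ (((Icc ⌈x / 8⌉₊ ⌊x / 4⌋₊).filter fun n => H ∣ n).card : ℝ) * H := by
  have hHR : (1 : ℝ) ≤ H := by exact_mod_cast hH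
  have hH0 : (0 : ℝ) < H := by linarith
  have h1 : (Icc ⌈x / (8 * H)⌉₊ ⌊x / (4 * H)⌋₊).card ≤
      ((Icc ⌈x / 8⌉₊ ⌊x / 4⌋₊).filter fun n => H ∣ n).card := by
    apply card_le_card_of_injOn (fun m => H * m)
    · intro m hm
      rw [coe_Icc, Set.mem_Icc] at hm
      rw [mem_coe, mem_filter, mem_Icc]
      refine ⟨⟨?_, ?_⟩, dvd_mul_right _ _⟩
      · rw [Nat.ceil_le]
        have h2 := Nat.ceil_le.mp hm.1
        rw [div_le_iff₀ (by positivity)] at h2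
        push_cast
        nlinarith
      · have hx0 : 0 ≤ x := by linarith
        rw [Nat.le_floor_iff (by linarith)]
        have h2 := (Nat.le_floor_iff (by positivity)).mp hm.2
        rw [le_div_iff₀ (by positivity)] at h2
        push_cast
        nlinarith
    · intro m _ m' _ h
      exact Nat.eq_of_mul_eq_mul_left (by omega) h
  have h2 : x / (8 * H) - 1 ≤ ((Icc ⌈x / (8 * H)⌉₊ ⌊x / (4 * H)⌋₊).card : ℝ) := by
    rw [Nat.card_Icc]
    have h3 : x / (4 * H) < ⌊x / (4 * H)⌋₊ + 1 := Nat.lt_floor_add_one _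
    have h4 : (⌈x / (8 * H)⌉₊ : ℝ) < x / (8 * H) + 1 := Nat.ceil_lt_add_one (by
      have : 0 ≤ x := by linarith
      positivity)
    have h5 : ((⌊x / (4 * H)⌋₊ + 1 : ℕ) : ℝ) ≤
        ((⌊x / (4 * H)⌋₊ + 1 - ⌈x / (8 * H)⌉₊ : ℕ) : ℝ) + (⌈x / (8 * H)⌉₊ : ℝ) := by
      exact_mod_cast (by omega)
    push_cast at h5
    have h6 : x / (4 * H) = 2 * (x / (8 * H)) := by
      field_simp
      ring
    linarith
  have h3 : ((Icc ⌈x / (8 * H)⌉₊ ⌊x / (4 * H)⌋₊).card : ℝ) ≤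
      (((Icc ⌈x / 8⌉₊ ⌊x / 4⌋₊).filter fun n => H ∣ n).card : ℝ) := by exact_mod_cast h1
  have h4 : (x / (8 * H) - 1) * H = x / 8 - H := by
    field_simp
  have h5 : (x / (8 * H) - 1) * H ≤
      (((Icc ⌈x / 8⌉₊ ⌊x / 4⌋₊).filter fun n => H ∣ n).card : ℝ) * H :=
    mul_le_mul_of_nonneg_right (h2.trans h3) hH0.le
  rw [h4] at h5
  linarith

/-- M4 (lower bound) -/
theorem card_YS_ge (b K : ℝ) (t : ℕ) (hK : 1 ≤ K) : ∃ κ : ℝ, 0 < κ ∧ ∀ (c : ℝ) (j H : ℕ) (p : ℕ → ℝ),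
    1 < c → c ≤ b + 1 → 1 ≤ H → SF 1 K c j t p → (∀ i ≤ t, 32 * (H : ℝ) ≤ p i) →
      κ * p 0 ^ c ≤ ((YS H (t + 1) p).card : ℝ) * p t ^ (c - 1) * (H : ℝ) ^ (t + 1) := by
  refine ⟨(1 / 16 : ℝ) ^ (t + 1) * (1 / 2) ^ t, by positivity, ?_⟩
  intro c j H p hc hcb hH h hbig
  have hpos : ∀ i ≤ t, 0 < p i := fun i hi => lt_of_lt_of_le one_pos (h.big i hi)
  have hlo : ∀ i < t, 1 / 2 * p i ^ (c - 1) ≤ p (i + 1) ^ c := by
    intro i hi
    refine le_trans ?_ (h.lo i hi)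
    have h1 : 1 ≤ K ^ c := Real.one_le_rpow hK (by linarith)
    have h2 : 0 ≤ p i ^ (c - 1) := Real.rpow_nonneg (hpos i hi.le).le _
    nlinarith
  have h5 := tel_ge c hc p t hpos hlo
  have h1 : (1 / 16 : ℝ) ^ (t + 1) * ∏ i ∈ range (t + 1), p i ≤
      ((YS H (t + 1) p).card : ℝ) * (H : ℝ) ^ (t + 1) := by
    rw [YS, Fintype.card_piFinset]
    push_cast
    rw [← Fin.prod_univ_eq_prod_range (fun i => p i) (t + 1)]
    have h2 : (1 / 16 : ℝ) ^ (t + 1) = ∏ _i : Fin (t + 1), (1 / 16 : ℝ) := by simp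
    have h3 : (H : ℝ) ^ (t + 1) = ∏ _i : Fin (t + 1), (H : ℝ) := by simp
    rw [h2, h3, ← prod_mul_distrib, ← prod_mul_distrib]
    refine prod_le_prod (fun i _ => ?_) fun i _ => ?_
    · have := hpos i (by have := i.2; omega)
      positivity
    · have := card_mult H hH (p i) (hbig i (by have := i.2; omega))
      linarith
  have hP : 0 ≤ p t ^ (c - 1) := Real.rpow_nonneg (hpos t le_rfl).le _
  calc (1 / 16 : ℝ) ^ (t + 1) * (1 / 2) ^ t * p 0 ^ c =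
        (1 / 16 : ℝ) ^ (t + 1) * ((1 / 2) ^ t * p 0 ^ c) := by ring
    _ ≤ (1 / 16 : ℝ) ^ (t + 1) * ((∏ i ∈ range (t + 1), p i) * p t ^ (c - 1)) :=
        mul_le_mul_of_nonneg_left h5 (by positivity)
    _ = ((1 / 16 : ℝ) ^ (t + 1) * ∏ i ∈ range (t + 1), p i) * p t ^ (c - 1) := by ring
    _ ≤ (((YS H (t + 1) p).card : ℝ) * (H : ℝ) ^ (t + 1)) * p t ^ (c - 1) :=
        mul_le_mul_of_nonneg_right h1 hP
    _ = _ := by ring

end Pool.Agent.D0H65.GE
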